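import Pool.Agent.Helper93.PL.St

/-! # Project PL, module Bm2: the product of `p/(p-1)` and the tail of the sum of `1/p²` -/

set_option autoImplicit false

namespace Pool.Agent.Helper86.PL

open Finset

/-- the product as a product over all numbers -/
private noncomputable def PP (K : ℕ) : ℝ :=
  ∏ p ∈ Icc 1 K, (if p.Prime then ((p : ℝ) / (p - 1)) else 1)

private theorem PP_eq (K : ℕ) :
    ∏ p ∈ (Icc 1 K).filter Nat.Prime, ((p : ℝ) / (p - 1)) = PP K := by
  rw [Finset.prod_filter]
  rfl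

private theorem PP_succ (K : ℕ) :
    PP (K + 1) = PP K * (if (K + 1).Prime then (((K + 1 : ℕ) : ℝ) / (((K + 1 : ℕ) : ℝ) - 1)) else 1) := by
  unfold PP
  rw [Finset.prod_Icc_succ_top (by omega)]

private theorem fac_ge (n : ℕ) :
    1 ≤ (if n.Prime then ((n : ℝ) / ((n : ℝ) - 1)) else 1) := by
  split_ifs with h
  · have h1 : (2 : ℝ) ≤ n := by exact_mod_cast h.two_le
    rw [le_div_iff₀ (by linarith)]
    linarith
  · exact le_refl 1

private theorem PP_pos (K : ℕ) : 0 < PP K := by
  unfold PP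
  exact Finset.prod_pos fun p _ => lt_of_lt_of_le one_pos (fac_ge p)

private theorem PP_mono (K : ℕ) : PP K ≤ PP (K + 1) := by
  rw [PP_succ]
  exact le_mul_of_one_le_right (PP_pos K).le (fac_ge (K + 1))

private theorem PP_odd (n : ℕ) : PP (2 * n + 1) ≤ 2 * Real.sqrt ((2 * n + 1 : ℕ) : ℝ) := by
  induction n with
  | zero =>
    have : PP (2 * 0 + 1) = 1 := by
      unfold PP
      simp [Nat.not_prime_one]
    rw [this]
    simp
  | succ n ih =>
    rcases Nat.eq_zero_or_pos n with hn | hn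
    · subst hn
      have e : PP (2 * (0 + 1) + 1) = 3 := by
        show PP 3 = 3
        rw [PP_succ 2, PP_succ 1, PP_succ 0]
        have h0 : PP 0 = 1 := by unfold PP; simp
        rw [h0, if_neg (by norm_num), if_pos (by norm_num), if_pos (by norm_num)]
        norm_num
      rw [e]
      have h3 : (3 / 2 : ℝ) ≤ Real.sqrt ((3 : ℕ) : ℝ) := by
        apply Real.le_sqrt_of_sq_le
        norm_num
      calc (3 : ℝ) = 2 * (3 / 2) := by norm_num
        _ ≤ 2 * Real.sqrt ((3 : ℕ) : ℝ) := mul_le_mul_of_nonneg_left h3 (by norm_num)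
    · have e : PP (2 * (n + 1) + 1) = PP (2 * n + 1) *
          (if (2 * n + 1 + 1).Prime then (((2 * n + 1 + 1 : ℕ) : ℝ) / (((2 * n + 1 + 1 : ℕ) : ℝ) - 1)) else 1) *
          (if (2 * n + 2 + 1).Prime then (((2 * n + 2 + 1 : ℕ) : ℝ) / (((2 * n + 2 + 1 : ℕ) : ℝ) - 1)) else 1) := by
        show PP (2 * n + 2 + 1) = _
        rw [PP_succ (2 * n + 2), PP_succ (2 * n + 1)]
      have hev : ¬ (2 * n + 1 + 1).Prime := by
        intro h
        have h2 : 2 ∣ 2 * n + 1 + 1 := ⟨n + 1, by ring⟩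
        have := (Nat.prime_dvd_prime_iff_eq Nat.prime_two h).1 h2
        omega
      rw [e, if_neg hev, mul_one]
      have hn0 : (0 : ℝ) ≤ n := Nat.cast_nonneg n
      have hf : (if (2 * n + 2 + 1).Prime then
          (((2 * n + 2 + 1 : ℕ) : ℝ) / (((2 * n + 2 + 1 : ℕ) : ℝ) - 1)) else 1) ≤
          (2 * (n : ℝ) + 3) / (2 * n + 2) := by
        split_ifs with h
        · push_cast
          apply le_of_eq
          congr 1 <;> ring
        · rw [le_div_iff₀ (by positivity)]
          linarith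
      have h1 : (0 : ℝ) ≤ Real.sqrt ((2 * n + 1 : ℕ) : ℝ) := Real.sqrt_nonneg _
      have h2 : (0 : ℝ) ≤ Real.sqrt ((2 * (n + 1) + 1 : ℕ) : ℝ) := Real.sqrt_nonneg _
      have s1 : Real.sqrt ((2 * n + 1 : ℕ) : ℝ) ^ 2 = 2 * n + 1 := by
        rw [Real.sq_sqrt (Nat.cast_nonneg _)]
        push_cast
        ring
      have s2 : Real.sqrt ((2 * (n + 1) + 1 : ℕ) : ℝ) ^ 2 = 2 * n + 3 := by
        rw [Real.sq_sqrt (Nat.cast_nonneg _)]
        push_cast
        ring
      calc PP (2 * n + 1) * _ ≤ (2 * Real.sqrt ((2 * n + 1 : ℕ) : ℝ)) * ((2 * (n : ℝ) + 3) / (2 * n + 2)) :=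
            mul_le_mul ih hf (le_trans zero_le_one (fac_ge _)) (by positivity)
        _ ≤ 2 * Real.sqrt ((2 * (n + 1) + 1 : ℕ) : ℝ) := by
            rw [mul_div_assoc', div_le_iff₀ (by positivity)]
            set a := Real.sqrt ((2 * n + 1 : ℕ) : ℝ)
            set b := Real.sqrt ((2 * (n + 1) + 1 : ℕ) : ℝ)
            have hab : a * b ≤ 2 * n + 2 := by nlinarith [sq_nonneg (a - b)]
            have : a * (2 * (n : ℝ) + 3) = (a * b) * b := by rw [← s2]; ring
            nlinarith [mul_le_mul_of_nonneg_right hab h2]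

theorem hBm2 : Pool.Agent.Helper93.PL.StBm2 := by
  intro K hK
  refine ⟨?_, fun w => ?_⟩
  · rw [PP_eq]
    rcases Nat.even_or_odd' K with ⟨n, hn | hn⟩
    · have h1 := PP_odd n
      rw [← hn] at h1
      refine (PP_mono K).trans (h1.trans (le_of_eq ?_))
      push_cast
      rfl
    · have h1 := PP_odd n
      rw [← hn] at h1
      refine h1.trans ?_
      have : Real.sqrt (K : ℝ) ≤ Real.sqrt ((K : ℝ) + 1) := Real.sqrt_le_sqrt (by linarith)
      linarith
  · rcases le_or_gt K w with hKw | hKw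
    · have hK0 : K ≠ 0 := by omega
      have h1 := sum_Ioc_inv_sq_le_sub (α := ℝ) hK0 hKw
      have h2 : ∑ p ∈ (Icc 1 w).filter (fun p => p.Prime ∧ K < p), 1 / (p : ℝ) ^ 2 ≤
          ∑ i ∈ Ioc K w, ((i : ℝ) ^ 2)⁻¹ := by
        have h3 : (Icc 1 w).filter (fun p => p.Prime ∧ K < p) ⊆ Ioc K w := by
          intro p hp
          rw [mem_filter, mem_Icc] at hp
          exact mem_Ioc.2 ⟨hp.2.2, hp.1.2⟩
        refine (Finset.sum_le_sum_of_subset_of_nonneg h3 fun i _ _ => by positivity).trans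
          (le_of_eq ?_)
        exact Finset.sum_congr rfl fun i _ => one_div _
      have h4 : (0 : ℝ) ≤ (w : ℝ)⁻¹ := by positivity
      rw [one_div]
      linarith
    · have h1 : (Icc 1 w).filter (fun p => p.Prime ∧ K < p) = ∅ := by
        apply Finset.filter_false_of_mem
        intro p hp h
        rw [mem_Icc] at hp
        omega
      rw [h1, Finset.sum_empty]
      positivity

end Pool.Agent.Helper86.PL
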